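import Pool.Agent.Y84.PG.F
import Pool.Agent.Y84.PC.D
import Pool.Agent.H26R2.Bass.Main

/-!
# The Bass trace conjecture at elements which are detected by finite groups
-/

set_option autoImplicit false

namespace Pool.Agent.Q62.Bass

open Pool.Agent.Y84.PG (cls tr LocInf tr_zero_local tr_map tr_apply idem_map exists_lift T_cls_eq)
open Pool.Agent.Y84.PT (exists_coeff_finset exists_spec exists_common_denom)

universe u v

/-- The images of `h` in finite groups under maps which are multiplicative on a given finite set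
have unbounded orders: for every finite subset `W` of `H` and every `m > 0` there is a map `f` from
`H` to a finite group with `f (x y) = f x f y` for `x, y ∈ W` and `f h ^ m ≠ 1`. -/
def LocallyDetected {H : Type v} [Group H] (h : H) : Prop :=
  ∀ (W : Finset H) (m : ℕ), 0 < m → ∃ (Q : Type v) (_ : Group Q) (_ : Finite Q) (f : H → Q),
    (∀ x ∈ W, ∀ y ∈ W, f (x * y) = f x * f y) ∧ f h ^ m ≠ 1

/-- For every `m > 0` some subgroup of finite index of the centraliser of `h` does not contain
`h ^ m`. -/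
def CentrallyDetected {H : Type v} [Group H] (h : H) : Prop :=
  ∀ m : ℕ, 0 < m → ∃ N : Subgroup (Subgroup.centralizer ({h} : Set H)), N.FiniteIndex ∧
    ∀ z ∈ N, (z : H) ≠ h ^ m

/-- Some homomorphism maps `h` to a locally detected or to a centrally detected element. -/
def Detected {H : Type v} [Group H] (h : H) : Prop :=
  ∃ (H' : Type v) (_ : Group H') (φ : H →* H'), LocallyDetected (φ h) ∨ CentrallyDetected (φ h)

theorem LocallyDetected.comap {H H' : Type v} [Group H] [Group H'] (φ : H →* H') {h : H}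
    (hh : LocallyDetected (φ h)) : LocInf h := by
  classical
  intro W m hm
  obtain ⟨Q, i1, i2, f, hf, hne⟩ := hh (W.image φ) m (Nat.pos_of_ne_zero hm)
  refine ⟨Q, i1, i2, fun x => f (φ x), fun x hx y hy => ?_, hne⟩
  show f (φ (x * y)) = _
  rw [map_mul]
  exact hf _ (Finset.mem_image_of_mem _ hx) _ (Finset.mem_image_of_mem _ hy)

theorem CentrallyDetected.comap {H H' : Type v} [Group H] [Group H'] (φ : H →* H') {h : H}
    (hh : CentrallyDetected (φ h)) : CentrallyDetected h := by
  intro m hm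
  obtain ⟨N, hN, hne⟩ := hh m hm
  let ψ : Subgroup.centralizer ({h} : Set H) →* Subgroup.centralizer ({φ h} : Set H') :=
    (φ.comp (Subgroup.centralizer ({h} : Set H)).subtype).codRestrict _ (by
      intro x
      rw [Subgroup.mem_centralizer_singleton_iff]
      have hx := Subgroup.mem_centralizer_singleton_iff.1 x.2
      show φ x * φ h = φ h * φ x
      rw [← map_mul, ← map_mul, hx])
  have hfi : (N.comap ψ).FiniteIndex := by
    refine ⟨?_⟩
    rw [Subgroup.index_comap]
    exact (inferInstance : (N.subgroupOf ψ.range).FiniteIndex).index_ne_zero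
  refine ⟨N.comap ψ, hfi, fun z hz h1 => ?_⟩
  apply hne (ψ z) hz
  show φ (z : H) = φ h ^ m
  rw [h1, map_pow]

section

variable {G : Type u} [Group G] {K : Type v} [Field K] [CharZero K]
variable {κ : Type*} [Fintype κ] [DecidableEq κ]

/-- fields of characteristic zero, centrally detected elements -/
theorem tr_zero_cen {E : Matrix κ κ (MonoidAlgebra K G)} (hE : E * E = E) {g : G}
    (hg : CentrallyDetected g) : tr (cls g) E = 0 := by
  classical
  by_contra hx
  set x : K := tr (cls g) E with hxdef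
  obtain ⟨U, hU⟩ := exists_coeff_finset E
  obtain ⟨R, hUR, ⟨ψ⟩⟩ := exists_spec (K := K) (AlgebraicClosure ℚ)
    ((insert x⁻¹ U : Finset K) : Set K) (Finset.finite_toSet _)
  have hmem : ∀ i j g, (E i j).coeff g ∈ R := by
    intro i j g
    exact hUR (by exact_mod_cast Finset.mem_insert_of_mem (hU i j g))
  have hxinv : x⁻¹ ∈ R := hUR (by exact_mod_cast Finset.mem_insert_self _ _)
  have halg : Algebra.IsAlgebraic ℚ (AlgebraicClosure ℚ) := AlgebraicClosure.isAlgebraic ℚ
  obtain ⟨E₀, hE₀, hE₀E⟩ := exists_lift (algebraMap R K) Subtype.val_injective hE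
    (fun i j g => ⟨⟨_, hmem i j g⟩, rfl⟩)
  have hE₁ := idem_map ψ hE₀
  set E₁ := E₀.map (MonoidAlgebra.mapRingHom G ψ) with hE₁def
  obtain ⟨U₁, hU₁⟩ := exists_coeff_finset E₁
  obtain ⟨N, hN, hNint⟩ := exists_common_denom (L := AlgebraicClosure ℚ) U₁
  have h0 : tr (cls g) E₁ = 0 := by
    obtain ⟨M, hM, hMg⟩ := hg (N ^ 2) (Nat.pos_of_ne_zero (pow_ne_zero _ hN))
    have hfin : Finite (Subgroup.centralizer ({g} : Set G) ⧸ M.normalCore) :=
      Subgroup.finite_quotient_of_finiteIndex
    refine Pool.Agent.Y84.PC.tr_zero_of_integral hE₁ hN (fun i j h => hNint _ (hU₁ i j h)) g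
      (QuotientGroup.mk' M.normalCore) rfl ?_
    intro h1
    rw [← map_pow] at h1
    have h2 := (QuotientGroup.eq_one_iff _).1 h1
    exact hMg _ (M.normalCore_le h2) rfl
  rw [hE₁def, tr_map] at h0
  have h1 : algebraMap R K (tr (cls g) E₀) = x := by
    rw [← tr_map, hE₀E]
  have h2 : tr (cls g) E₀ * ⟨x⁻¹, hxinv⟩ = 1 := by
    apply Subtype.val_injective
    change algebraMap R K (tr (cls g) E₀) * x⁻¹ = 1
    rw [h1]
    exact mul_inv_cancel₀ hx
  have h3 := congrArg ψ h2
  rw [map_mul, h0, zero_mul, map_one] at h3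
  exact zero_ne_one h3

end

section

variable {G : Type u} [Group G] {R : Type v} [CommRing R] [IsDomain R] [CharZero R] {n : ℕ}

/-- detected elements, domains of characteristic zero -/
theorem tau_zero_of_detected {A : Matrix (Fin n) (Fin n) (MonoidAlgebra R G)} (hA : A * A = A)
    {g : G} (hg : Detected g) : H26R2.Bass.tau A g = 0 := by
  have hK : CharZero (FractionRing R) :=
    charZero_of_injective_algebraMap (IsFractionRing.injective R (FractionRing R))
  have hE := idem_map (algebraMap R (FractionRing R)) hA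
  have h1 : tr (cls g) (A.map (MonoidAlgebra.mapRingHom G (algebraMap R (FractionRing R)))) = 0 := by
    obtain ⟨H', _, φ, h | h⟩ := hg
    · exact tr_zero_local hE (h.comap φ)
    · exact tr_zero_cen hE (h.comap φ)
  rw [tr_map] at h1
  have h2 : tr (cls g) A = 0 :=
    (IsFractionRing.injective R (FractionRing R)) (by rw [h1, map_zero])
  rw [tr_apply] at h2
  unfold H26R2.Bass.tau
  rw [← h2]
  exact Finset.sum_congr rfl (fun i _ => (T_cls_eq g (A i i)).symm)

/-- the main theorem -/
theorem bass_of_detected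
    (hG : ∀ H : Subgroup G, H.FG → ∀ h : H, (¬ ∃ n : ℕ, 0 < n ∧ h ^ n = 1) → Detected h)
    (A : Matrix (Fin n) (Fin n) (MonoidAlgebra R G)) (hA : A * A = A) (g : G)
    (hg : ¬ IsUnit ((orderOf g : ℕ) : R)) : H26R2.Bass.tau A g = 0 := by
  rw [H26R2.Bass.tau_eq]
  by_cases hfin : orderOf g = 0
  · by_contra hne
    obtain ⟨H, hH, B, hB, h, hconj, hne'⟩ := H26R2.Bass.exists_local A hA g hne
    apply hne'
    rw [← H26R2.Bass.tau_eq]
    apply tau_zero_of_detected hB
    apply hG H hH h
    rintro ⟨m, hm, hhm⟩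
    have h1 : orderOf (h : G) = orderOf g := by
      obtain ⟨c, hc⟩ := isConj_iff.1 hconj
      rw [← hc]
      exact (orderOf_injective (MulAut.conj c).toMonoidHom (MulAut.conj c).injective (h : G)).symm
    have h2 : (h : G) ^ m = 1 := by rw [← Subgroup.coe_pow, hhm]; rfl
    have h3 := orderOf_pos_iff.2 (isOfFinOrder_iff_pow_eq_one.2 ⟨m, hm, h2⟩)
    omega
  · exact H26R2.Bass.tf_zero_of_finite A hA g hfin hg

end

/-- `G` is locally embeddable into finite groups. -/
def LEF (G : Type v) [Group G] : Prop :=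
  ∀ W : Finset G, ∃ (Q : Type v) (_ : Group Q) (_ : Finite Q) (f : G → Q),
    Set.InjOn f W ∧ ∀ x ∈ W, ∀ y ∈ W, f (x * y) = f x * f y

/-- `G` is residually finite. -/
def ResFin (G : Type v) [Group G] : Prop :=
  ∀ g : G, g ≠ 1 → ∃ N : Subgroup G, N.FiniteIndex ∧ g ∉ N

theorem ResFin.lef {G : Type v} [Group G] (h : ResFin G) : LEF G := by
  apply Pool.Agent.Y84.PT.lef_of_rf
  intro g hg
  obtain ⟨N, hN, hgN⟩ := h g hg
  exact ⟨N.normalCore, inferInstance, inferInstance, fun h1 => hgN (N.normalCore_le h1)⟩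

theorem LEF.detected {G : Type v} [Group G] (hG : LEF G) {g : G}
    (hg : ¬ ∃ n : ℕ, 0 < n ∧ g ^ n = 1) : LocallyDetected g := by
  intro W m hm
  exact Pool.Agent.Y84.PG.locInf_of_lef hG (g := g)
    (fun h => hg (isOfFinOrder_iff_pow_eq_one.1 h)) W m hm.ne'

theorem LEF.subgroup {G : Type v} [Group G] (hG : LEF G) (H : Subgroup G) : LEF H := by
  classical
  intro W
  obtain ⟨Q, i1, i2, f, hf, hm⟩ := hG (W.image (fun x : H => (x : G)))
  refine ⟨Q, i1, i2, fun x => f (x : G), ?_, ?_⟩
  · intro x hx y hy hxy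
    exact Subtype.ext (hf (by exact_mod_cast Finset.mem_image_of_mem (fun x : H => (x : G)) hx)
      (by exact_mod_cast Finset.mem_image_of_mem (fun x : H => (x : G)) hy) hxy)
  · intro x hx y hy
    exact hm _ (Finset.mem_image_of_mem (fun x : H => (x : G)) hx) _
      (Finset.mem_image_of_mem (fun x : H => (x : G)) hy)

theorem ResFin.detected {G : Type v} [Group G] {g : G}
    (hC : ResFin (Subgroup.centralizer ({g} : Set G))) (hg : ¬ ∃ n : ℕ, 0 < n ∧ g ^ n = 1) :
    CentrallyDetected g := by
  intro m hm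
  have hmem : g ∈ Subgroup.centralizer ({g} : Set G) := Subgroup.mem_centralizer_singleton_iff.2 rfl
  obtain ⟨N, hN, hne⟩ := hC (⟨g, hmem⟩ ^ m) (by
    intro h
    exact hg ⟨m, hm, congrArg Subtype.val h⟩)
  refine ⟨N, hN, fun z hz h1 => hne ?_⟩
  have : z = (⟨g, hmem⟩ : Subgroup.centralizer ({g} : Set G)) ^ m := Subtype.ext h1
  rwa [← this]

end Pool.Agent.Q62.Bass
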